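import Pool.Agent.U753.MK.Stm

set_option autoImplicit false

/-! Package CH of project MK: the chain rule for the free energy. -/

open scoped BigOperators Matrix ComplexOrder MatrixOrder
open scoped Matrix.Norms.L2Operator

noncomputable section

namespace Pool.Agent.U358.MK.CH

open Pool.Agent.U753.MK

section Basic

variable {n : Type} [Fintype n] [DecidableEq n]

lemma exists_log (M : Matrix n n ℂ) (hM : M.PosDef) :
    ∃ X : Matrix n n ℂ, X.IsHermitian ∧ NormedSpace.exp X = M :=
  ⟨CFC.log M, IsSelfAdjoint.log, CFC.exp_log M hM.isStrictlyPositive⟩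

lemma exp_inj {X Y : Matrix n n ℂ} (hX : X.IsHermitian) (hY : Y.IsHermitian)
    (h : NormedSpace.exp X = NormedSpace.exp Y) : X = Y := by
  rw [← CFC.log_exp X hX, h, CFC.log_exp Y hY]

lemma exp_posDef {X : Matrix n n ℂ} (hX : X.IsHermitian) : (NormedSpace.exp X).PosDef := by
  have h1 : (0 : Matrix n n ℂ) ≤ NormedSpace.exp X := IsSelfAdjoint.exp_nonneg hX
  have h2 : IsUnit (NormedSpace.exp X) := Matrix.isUnit_exp X
  exact Matrix.isStrictlyPositive_iff_posDef.1 (IsStrictlyPositive.iff_of_unital.2 ⟨h1, h2⟩)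

lemma tr_mul_nonneg {A Q : Matrix n n ℂ} (hA : A.PosSemidef) (hQ : Q.PosSemidef) :
    0 ≤ (A * Q).trace.re := by
  have h0 : (0 : Matrix n n ℂ) ≤ A := hA.nonneg
  obtain ⟨B, rfl⟩ := CStarAlgebra.nonneg_iff_eq_star_mul_self.1 h0
  rw [Matrix.mul_assoc, Matrix.trace_mul_comm]
  exact (Complex.le_def.1 (hQ.mul_mul_conjTranspose_same B).trace_nonneg).1

lemma tr_le {A W : Matrix n n ℂ} (hA : A.PosSemidef) (hW : W.IsHermitian) :
    (A * W).trace.re ≤ ‖W‖ * A.trace.re := by
  have h1 : W ≤ algebraMap ℝ (Matrix n n ℂ) ‖W‖ := IsSelfAdjoint.le_algebraMap_norm_self hW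
  have h2 : (algebraMap ℝ (Matrix n n ℂ) ‖W‖ - W).PosSemidef := h1
  have h3 := tr_mul_nonneg hA h2
  rw [Algebra.algebraMap_eq_smul_one, mul_sub, mul_smul_comm, mul_one, Matrix.trace_sub,
    Matrix.trace_smul] at h3
  simp only [Complex.sub_re, Complex.real_smul, Complex.mul_re, Complex.ofReal_re,
    Complex.ofReal_im, zero_mul, sub_zero] at h3
  linarith

lemma tr_algebraMap (A : Matrix n n ℂ) (r : ℝ) :
    (A * algebraMap ℝ (Matrix n n ℂ) r).trace.re = r * A.trace.re := by
  rw [Algebra.algebraMap_eq_smul_one, mul_smul_comm, mul_one, Matrix.trace_smul]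
  simp only [Complex.real_smul, Complex.mul_re, Complex.ofReal_re,
    Complex.ofReal_im, zero_mul, sub_zero]

omit [Fintype n] [DecidableEq n] in
lemma isHermitian_sum {V : Type} (s : Finset V) (h : V → Matrix n n ℂ)
    (hh : ∀ v, (h v).IsHermitian) : (∑ v ∈ s, h v).IsHermitian := by
  unfold Matrix.IsHermitian
  rw [Matrix.conjTranspose_sum]
  exact Finset.sum_congr rfl fun v _ => hh v

lemma isHermitian_algebraMap (r : ℝ) : (algebraMap ℝ (Matrix n n ℂ) r).IsHermitian := by
  have : IsSelfAdjoint (algebraMap ℝ (Matrix n n ℂ) r) := IsSelfAdjoint.algebraMap _ (.all r)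
  exact this

end Basic

/-- telescoping along an injective numbering -/
lemma telescope {V : Type} [Fintype V] [DecidableEq V] (pos : V → ℕ) (hpos : Function.Injective pos)
    (g : Finset V → ℝ) :
    ∑ v, (g (Finset.univ.filter fun w => pos w < pos v + 1) -
      g (Finset.univ.filter fun w => pos w < pos v)) = g Finset.univ - g ∅ := by
  obtain ⟨M, hM⟩ : ∃ M : ℕ, ∀ v, pos v < M :=
    ⟨(Finset.univ.sup pos) + 1, fun v => Nat.lt_succ_of_le (Finset.le_sup (Finset.mem_univ v))⟩
  set g' : ℕ → ℝ := fun k => g (Finset.univ.filter fun w => pos w < k) with hg'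
  have h1 : ∑ k ∈ Finset.range M, (g' (k + 1) - g' k) = g' M - g' 0 :=
    Finset.sum_range_sub g' M
  have h2 : g' M = g Finset.univ := by
    simp only [hg']
    congr 1
    exact Finset.filter_true_of_mem fun v _ => hM v
  have h3 : g' 0 = g ∅ := by
    simp only [hg']
    congr 1
    exact Finset.filter_false_of_mem fun v _ => Nat.not_lt_zero _
  have h4 : ∑ k ∈ Finset.range M, (g' (k + 1) - g' k) =
      ∑ k ∈ Finset.univ.image pos, (g' (k + 1) - g' k) := by
    symm
    apply Finset.sum_subset
    · intro k hk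
      obtain ⟨v, -, rfl⟩ := Finset.mem_image.1 hk
      exact Finset.mem_range.2 (hM v)
    · intro k _ hk
      have : (Finset.univ.filter fun w => pos w < k + 1) =
          (Finset.univ.filter fun w => pos w < k) := by
        apply Finset.filter_congr
        intro w _
        constructor
        · intro h
          rcases Nat.lt_succ_iff_lt_or_eq.1 h with h | h
          · exact h
          · exact absurd (Finset.mem_image.2 ⟨w, Finset.mem_univ w, h⟩) hk
        · intro h
          exact Nat.lt_succ_of_lt h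
      simp only [hg']
      rw [this, sub_self]
  rw [Finset.sum_image fun a _ b _ hab => hpos hab] at h4
  rw [← h2, ← h3, ← h1, h4]

theorem t_chain : StmLogRange → StmMono → StmCexp → StmChain := by
  intro hLR hM hC V _ _ d hd pos hpos h G J hJ hh hG hnG
  obtain ⟨hCE, hcc, hpd, huniv, hemp⟩ := hC V d hd
  have : Nonempty (Fin d) := ⟨⟨0, hd⟩⟩
  set H : Matrix (V → Fin d) (V → Fin d) ℂ := ∑ v, h v with hHdef
  have hHh : H.IsHermitian := isHermitian_sum _ h hh
  have hHn : (-H).IsHermitian := hHh.neg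
  set K := NormedSpace.exp (-H) with hKdef
  have hK : K.PosDef := exp_posDef hHn
  set Z0 : ℝ := K.trace.re with hZ0
  have hZpos : 0 < Z0 := (Complex.lt_def.1 hK.trace_pos).1
  have hZim : K.trace = (Z0 : ℂ) := by
    apply Complex.ext
    · simp [hZ0]
    · simpa using (Complex.lt_def.1 hK.trace_pos).2.symm
  set σ : Matrix (V → Fin d) (V → Fin d) ℂ := Z0⁻¹ • K with hσdef
  set S : Matrix (V → Fin d) (V → Fin d) ℂ :=
    algebraMap ℝ _ (Real.log Z0⁻¹) + -H with hSdef
  have hSh : S.IsHermitian := (isHermitian_algebraMap _).add hHn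
  have hlog : CFC.log σ = S := by
    rw [hσdef, CFC.log_smul' K (inv_pos.2 hZpos) hK.isStrictlyPositive, hKdef,
      CFC.log_exp (-H) hHn]
  have hσ : σ.PosDef := hK.smul (inv_pos.2 hZpos)
  have hSe : NormedSpace.exp S = σ := by
    rw [← hlog]
    exact CFC.exp_log σ hσ.isStrictlyPositive
  have hσtr : σ.trace = 1 := by
    rw [hσdef, Matrix.trace_smul, hZim, Complex.real_smul, ← Complex.ofReal_mul,
      inv_mul_cancel₀ hZpos.ne', Complex.ofReal_one]
  choose X hXh hXe using fun A : Finset V => exists_log (cexp A σ) (hpd A σ hσ)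
  have hXr : ∀ A B : Finset V, A ⊆ B → cexp B (X A) = X A := by
    intro A B hAB
    apply hLR _ (cexp B) (hCE B) _ (hXh A)
    rw [hXe, hcc, Finset.inter_eq_right.2 hAB]
  have hT : ∀ (A : Finset V) (W : Matrix (V → Fin d) (V → Fin d) ℂ), cexp A W = W →
      (NormedSpace.exp (X A) * W).trace = (σ * W).trace := by
    intro A W hW
    rw [hXe]
    have h1 := (hCE A).mul_right σ W
    have h2 := (hCE A).tr (σ * cexp A W)
    rw [h1, hW] at h2
    exact h2
  set g : Finset V → ℝ := fun A => (σ * X A).trace.re with hg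
  have hsub : ∀ A B : Matrix (V → Fin d) (V → Fin d) ℂ,
      (σ * (A - B)).trace.re = (σ * A).trace.re - (σ * B).trace.re := by
    intro A B
    rw [mul_sub, Matrix.trace_sub, Complex.sub_re]
  have hrs : ∀ (A : Finset V) (W W' : Matrix (V → Fin d) (V → Fin d) ℂ), cexp A W = W →
      cexp A W' = W' → cexp A (W - W') = W - W' := by
    intro A W W' h1 h2
    have h3 := (hCE A).add W ((-1 : ℂ) • W')
    rw [(hCE A).smul, h1, h2] at h3
    rw [sub_eq_add_neg, ← neg_one_smul ℂ W']
    exact h3
  -- strong subadditivity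
  have hSSA : ∀ A B C : Finset V, A ⊆ B → g (C ∩ B) - g (C ∩ A) ≤ g B - g A := by
    intro A B C hAB
    have h1 := hM _ (cexp C) (hCE C) (X B) (X A) (X (C ∩ B)) (X (C ∩ A)) (hXh _) (hXh _) (hXh _)
      (hXh _) (by rw [hXe, hXe, hcc]) (by rw [hXe, hXe, hcc])
    rw [hT (C ∩ B) _ (hrs _ _ _ (hXr _ _ subset_rfl)
        (hXr _ _ (Finset.inter_subset_inter_left hAB))),
      hT B _ (hrs _ _ _ (hXr _ _ subset_rfl) (hXr _ _ hAB)), hsub, hsub] at h1
    exact h1
  have hV : ∀ v, -(σ * h v).trace.re ≤
      (g (Finset.univ.filter fun w => pos w < pos v + 1) -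
        g (Finset.univ.filter fun w => pos w < pos v)) + if v ∈ G then 0 else J := by
    intro v
    have hAB : (Finset.univ.filter fun w => pos w < pos v) ⊆
        (Finset.univ.filter fun w => pos w < pos v + 1) := by
      intro w hw
      rw [Finset.mem_filter] at hw ⊢
      exact ⟨hw.1, Nat.lt_succ_of_lt hw.2⟩
    by_cases hv : v ∈ G
    · rw [if_pos hv, add_zero]
      obtain ⟨P, Y, Z, hP, hYh, hZh, hY, hZ, hhv⟩ := hG v hv
      have h1 := hSSA _ _ (insert v P) hAB
      have hB : insert v P ∩ (Finset.univ.filter fun w => pos w < pos v + 1) = insert v P := by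
        apply Finset.inter_eq_left.2
        intro w hw
        rw [Finset.mem_filter]
        refine ⟨Finset.mem_univ _, ?_⟩
        rcases Finset.mem_insert.1 hw with rfl | hw
        · exact Nat.lt_succ_self _
        · exact Nat.lt_succ_of_lt (hP w hw)
      have hA : insert v P ∩ (Finset.univ.filter fun w => pos w < pos v) = P := by
        ext w
        rw [Finset.mem_inter, Finset.mem_filter, Finset.mem_insert]
        constructor
        · rintro ⟨rfl | hw, -, hlt⟩
          · exact absurd hlt (lt_irrefl _)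
          · exact hw
        · intro hw
          exact ⟨Or.inr hw, Finset.mem_univ _, hP w hw⟩
      rw [hB, hA] at h1
      have hPi : P ∩ insert v P = P := Finset.inter_eq_left.2 (Finset.subset_insert _ _)
      have hYr : cexp (insert v P) Y = Y := hLR _ _ (hCE _) _ hYh hY
      have hZr : cexp P Z = Z := by
        apply hLR _ _ (hCE _) _ hZh
        rw [hZ, (hCE P).idem]
      have h2 := hM _ (cexp P) (hCE P) (X (insert v P)) Y (X P) Z (hXh _) hYh (hXh _) hZh
        (by rw [hXe, hXe, hcc, hPi]) hZ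
      rw [hT P _ (hrs _ _ _ (hXr _ _ subset_rfl) hZr),
        hT (insert v P) _ (hrs _ _ _ (hXr _ _ subset_rfl) hYr), hsub, hsub] at h2
      rw [hhv, hsub]
      simp only [hg] at h1 ⊢
      linarith
    · rw [if_neg hv]
      have h1 := hSSA _ _ ∅ hAB
      rw [Finset.empty_inter, Finset.empty_inter, sub_self] at h1
      have h2 := tr_le hσ.posSemidef (hh v).neg
      rw [hσtr, norm_neg, mul_neg, Matrix.trace_neg, Complex.neg_re, Complex.one_re, mul_one] at h2
      have h3 := hnG v hv
      linarith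
  have hsum := Finset.sum_le_sum fun v (_ : v ∈ Finset.univ) => hV v
  rw [Finset.sum_add_distrib, telescope pos hpos g, Finset.sum_neg_distrib] at hsum
  have hJs : ∑ v : V, (if v ∈ G then (0 : ℝ) else J) = ((Finset.univ \ G).card : ℝ) * J := by
    rw [← Finset.sum_filter_add_sum_filter_not Finset.univ (fun v => v ∈ G),
      Finset.sum_congr rfl (fun v hv => if_pos (Finset.mem_filter.1 hv).2),
      Finset.sum_congr (s₁ := Finset.univ.filter fun v => ¬ v ∈ G) rfl
        (fun v hv => if_neg (Finset.mem_filter.1 hv).2)]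
    rw [Finset.sum_const_zero, zero_add, Finset.sum_const, nsmul_eq_mul,
      Finset.filter_notMem_eq_sdiff]
  -- the full set
  have hXu : X Finset.univ = S := by
    apply exp_inj (hXh _) hSh
    rw [hXe, huniv, hSe]
  have hgu : g Finset.univ = -Real.log Z0 - ∑ v, (σ * h v).trace.re := by
    simp only [hg]
    rw [hXu, hSdef, mul_add, Matrix.trace_add, Complex.add_re, tr_algebraMap, hσtr,
      Complex.one_re, mul_one, Real.log_inv, mul_neg, Matrix.trace_neg, Complex.neg_re, hHdef,
      Finset.mul_sum, Matrix.trace_sum, Complex.re_sum]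
    ring
  -- the empty set
  have hD : (0 : ℝ) < (d : ℝ) ^ Fintype.card V := by positivity
  have hXz : X ∅ = algebraMap ℝ _ (Real.log ((d : ℝ) ^ Fintype.card V)⁻¹) := by
    rw [← CFC.log_algebraMap, ← CFC.log_exp (X ∅) (hXh _)]
    congr 1
    rw [hXe, hemp, hσtr, one_mul, Algebra.algebraMap_eq_smul_one]
    ext s t
    simp only [Matrix.smul_apply, smul_eq_mul, Complex.real_smul]
    push_cast
    rfl
  have hgz : g ∅ = -((Fintype.card V : ℝ) * Real.log d) := by
    simp only [hg]
    rw [hXz, tr_algebraMap, hσtr, Complex.one_re, mul_one, Real.log_inv, Real.log_pow]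
  rw [hgu, hgz, hJs] at hsum
  linarith

end Pool.Agent.U358.MK.CH
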